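import Pool.Agent.Lib.MP_dee751_an.Dichotomy

set_option autoImplicit false

open Pool.Agent.Lib.MP_dee751_an

namespace Pool.Agent.Results.MP_dee751_an.Dichotomy

/-- `B` is quasi-similar to an operator with a non-trivial invariant subspace if and only if `B`
has one itself or some nonzero operator commuting with `B` divides no nonzero polynomial in `B`. -/
theorem result (H : Type) [NormedAddCommGroup H] [InnerProductSpace ℂ H] [CompleteSpace H]
    (hH : ¬FiniteDimensional ℂ H) (B : H →L[ℂ] H) :
    (∃ A : H →L[ℂ] H, QuasiSimilar A B ∧ HasInvSub A) ↔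
      HasInvSub B ∨ ∃ C : H →L[ℂ] H, C ≠ 0 ∧ C.comp B = B.comp C ∧
        ∀ (p : Polynomial ℂ) (W : H →L[ℂ] H), C.comp W = Polynomial.aeval B p → p = 0 :=
  dichotomy hH B

end Pool.Agent.Results.MP_dee751_an.Dichotomy
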