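import Pool.Agent.Lib.MP_dee751_an.G.Main

/-! An operator that is quasi-similar to a non-zero operator which moves each space of an
orthogonal decomposition into finite-dimensional spaces, indexed by the integers, into the next one
has a non-trivial closed hyperinvariant subspace. -/

namespace Pool.Agent.Results.MP_dee751_an.GradedShift

theorem result {H K : Type*}
    [NormedAddCommGroup H] [InnerProductSpace ℂ H] [CompleteSpace H]
    [NormedAddCommGroup K] [InnerProductSpace ℂ K] [CompleteSpace K]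
    (M : ℤ → Submodule ℂ H) (hfin : ∀ n, FiniteDimensional ℂ (M n))
    (horth : ∀ m n, m ≠ n → M m ⟂ M n)
    (hdense : Dense ((⨆ n, M n : Submodule ℂ H) : Set H))
    (A : H →L[ℂ] H) (hA : ∀ n, ∀ x ∈ M n, A x ∈ M (n + 1)) (h0 : A ≠ 0)
    (B : K →L[ℂ] K) (X : H →L[ℂ] K) (Y : K →L[ℂ] H)
    (hX : Function.Injective X) (hY : DenseRange Y) (hXA : X.comp A = B.comp X)
    (hAY : A.comp Y = Y.comp B) :
    ∃ N : Submodule ℂ K, IsClosed (N : Set K) ∧ N ≠ ⊥ ∧ N ≠ ⊤ ∧
      ∀ S : K →L[ℂ] K, S.comp B = B.comp S → ∀ x ∈ N, S x ∈ N :=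
  (Pool.Agent.Lib.MP_dee751_an.G.pair_graded M hfin horth hdense hA h0).transfer hX hY hXA hAY

end Pool.Agent.Results.MP_dee751_an.GradedShift
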