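import Pool.Agent.Lib.MP_dee751_an.ED

/-! An operator that is quasi-similar to a non-scalar power bounded operator `A` such that the
powers of `A` or of its adjoint do not tend to zero strongly has a non-trivial closed
hyperinvariant subspace. -/

namespace Pool.Agent.Results.MP_dee751_an.NonStable

open Filter Topology

theorem result {H K : Type*} [NormedAddCommGroup H] [InnerProductSpace ℂ H] [CompleteSpace H]
    [NormedAddCommGroup K] [InnerProductSpace ℂ K] [CompleteSpace K]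
    (A : H →L[ℂ] H) (B : K →L[ℂ] K) (X : H →L[ℂ] K) (Y : K →L[ℂ] H)
    (hX : Function.Injective X) (hY : DenseRange Y) (hXA : X.comp A = B.comp X)
    (hAY : A.comp Y = Y.comp B) (hp : ∃ M : ℝ, ∀ n : ℕ, ‖A ^ n‖ ≤ M)
    (hs : ∀ c : ℂ, A ≠ c • ContinuousLinearMap.id ℂ H)
    (hn : (∃ x, ¬Tendsto (fun n : ℕ => (A ^ n) x) atTop (𝓝 0)) ∨
      ∃ x, ¬Tendsto (fun n : ℕ => (ContinuousLinearMap.adjoint A ^ n) x) atTop (𝓝 0)) :
    ∃ N : Submodule ℂ K, IsClosed (N : Set K) ∧ N ≠ ⊥ ∧ N ≠ ⊤ ∧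
      ∀ S : K →L[ℂ] K, S.comp B = B.comp S → ∀ x ∈ N, S x ∈ N := by
  obtain ⟨M, hM⟩ := hp
  refine Pool.Agent.Lib.MP_dee751_an.E.Pair.transfer ?_ hX hY hXA hAY
  rcases hn with ⟨x, hx⟩ | ⟨x, hx⟩
  · exact Pool.Agent.Lib.MP_dee751_an.E.pair_of_not_stable hM hs hx
  · refine (Pool.Agent.Lib.MP_dee751_an.E.pair_of_not_stable (T := star A) (M := M)
      (fun n => by rw [← star_pow, norm_star]; exact hM n) (fun c hc => hs (star c) ?_) hx).of_star
    have := congrArg star hc
    rwa [star_star, star_smul, star_one] at this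

end Pool.Agent.Results.MP_dee751_an.NonStable
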