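import Pool.Agent.Lib.MP_dee751_an.SP.Main

/-! An operator that is quasi-similar to a trace class perturbation of a hyponormal or cohyponormal
operator has a non-trivial closed invariant subspace. -/

namespace Pool.Agent.Results.MP_dee751_an.SeminormalPlusTraceClass

theorem result {H K : Type*} [NormedAddCommGroup H] [InnerProductSpace ℂ H] [CompleteSpace H]
    [NormedAddCommGroup K] [InnerProductSpace ℂ K] [CompleteSpace K]
    (hH : ¬FiniteDimensional ℂ H) (S C : H →L[ℂ] H) (B : K →L[ℂ] K) (X : H →L[ℂ] K)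
    (Y : K →L[ℂ] H) (hX : Function.Injective X) (hY : DenseRange Y)
    (hXA : X.comp (S + C) = B.comp X) (hAY : (S + C).comp Y = Y.comp B)
    (hS : (∀ x, ‖ContinuousLinearMap.adjoint S x‖ ≤ ‖S x‖) ∨
      ∀ x, ‖S x‖ ≤ ‖ContinuousLinearMap.adjoint S x‖)
    (u v : ℕ → H) (huv : Summable fun n => ‖u n‖ * ‖v n‖)
    (hC : ∀ x, HasSum (fun n => inner ℂ (v n) x • u n) (C x)) :
    ∃ N : Submodule ℂ K, IsClosed (N : Set K) ∧ N ≠ ⊥ ∧ N ≠ ⊤ ∧ ∀ x ∈ N, B x ∈ N :=
  Pool.Agent.Lib.MP_dee751_an.Q.transfer hH hX hY hXA hAY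
    (Pool.Agent.Lib.MP_dee751_an.SP.pr hH hS u v huv hC)

end Pool.Agent.Results.MP_dee751_an.SeminormalPlusTraceClass
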